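import Pool.Agent.E8helper77.TW.Dcb
import Pool.Agent.E8helper1.TW.Stm

/-! Pieces DCA and DCB of the project TW. -/

set_option autoImplicit false

namespace Pool.Agent.E8helper77.TW

open Pool.Agent.E8helper1.TW (S_DCA S_DCB)

theorem t_DCA : S_DCA := fun _ _ _ _ _ _ _ D M hM => dca D M hM

theorem t_DCB : S_DCB := fun _ _ _ _ _ _ _ D a ha h => dcb D a ha h

end Pool.Agent.E8helper77.TW
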