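import Pool.Agent.E8helper1.TW.Stm

/-!
# A Lie algebra of matrices with nondegenerate Killing form has no abelian ideals (piece KIL2 of TW)
-/

set_option autoImplicit false

namespace Pool.Agent.E8helper77.TW

open Matrix Module

variable {n : Type} [Fintype n] [DecidableEq n] {d : ℕ}

/-- the element with the coordinates `b` -/
def el (u : Fin d → Matrix n n ℂ) (b : Fin d → ℂ) : Matrix n n ℂ := ∑ l, b l • u l

/-- the matrix of `ad u_i` -/
def adm (c : Fin d → Fin d → Fin d → ℂ) (i : Fin d) : Matrix (Fin d) (Fin d) ℂ :=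
  Matrix.of fun m l => c i l m

/-- the matrix of `ad` of the element with the coordinates `a` -/
def adv (c : Fin d → Fin d → Fin d → ℂ) (a : Fin d → ℂ) : Matrix (Fin d) (Fin d) ℂ :=
  ∑ i, a i • adm c i

theorem ad_basis {u : Fin d → Matrix n n ℂ} {c : Fin d → Fin d → Fin d → ℂ}
    (h : ∀ i j, u i * u j - u j * u i = ∑ l, c i j l • u l) (i : Fin d) (b : Fin d → ℂ) :
    u i * el u b - el u b * u i = el u (adm c i *ᵥ b) := by
  unfold el
  rw [Finset.mul_sum, Finset.sum_mul, ← Finset.sum_sub_distrib]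
  have h1 : ∀ l, u i * (b l • u l) - b l • u l * u i = ∑ m, (b l * c i l m) • u m := by
    intro l
    rw [Matrix.mul_smul, Matrix.smul_mul, ← smul_sub, h, Finset.smul_sum]
    exact Finset.sum_congr rfl fun m _ => smul_smul _ _ _
  rw [Finset.sum_congr rfl fun l _ => h1 l, Finset.sum_comm]
  refine Finset.sum_congr rfl fun m _ => ?_
  rw [← Finset.sum_smul]
  congr 1
  unfold Matrix.mulVec dotProduct adm
  exact Finset.sum_congr rfl fun l _ => mul_comm _ _

theorem ad_el {u : Fin d → Matrix n n ℂ} {c : Fin d → Fin d → Fin d → ℂ}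
    (h : ∀ i j, u i * u j - u j * u i = ∑ l, c i j l • u l) (a b : Fin d → ℂ) :
    el u a * el u b - el u b * el u a = el u (adv c a *ᵥ b) := by
  have h1 : el u (adv c a *ᵥ b) = ∑ i, a i • el u (adm c i *ᵥ b) := by
    have e : adv c a *ᵥ b = ∑ i, a i • (adm c i *ᵥ b) := by
      unfold adv
      rw [Matrix.sum_mulVec]
      exact Finset.sum_congr rfl fun i _ => Matrix.smul_mulVec _ _ _
    rw [e]
    unfold el
    simp only [Finset.sum_apply, Pi.smul_apply, smul_eq_mul, Finset.sum_smul, Finset.smul_sum,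
      smul_smul]
    rw [Finset.sum_comm]
  rw [h1]
  conv_lhs => rw [el.eq_def u a]
  rw [Finset.sum_mul, Finset.mul_sum, ← Finset.sum_sub_distrib]
  refine Finset.sum_congr rfl fun i _ => ?_
  rw [← ad_basis h, Matrix.smul_mul, Matrix.mul_smul, ← smul_sub]

theorem t_KIL2 : Pool.Agent.E8helper1.TW.S_KIL2 := by
  intro n _ _ d u hu c hc hdet J hJ hid hab
  rw [eq_bot_iff]
  intro y hy
  rw [Submodule.mem_bot]
  have hinj : ∀ b, el u b = 0 → b = 0 := by
    intro b hb
    funext i
    exact Fintype.linearIndependent_iff.1 hu b hb i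
  have hel : ∀ b, el u b ∈ Submodule.span ℂ (Set.range u) := fun b =>
    Submodule.sum_mem _ fun i _ => Submodule.smul_mem _ _ (Submodule.subset_span ⟨i, rfl⟩)
  obtain ⟨a, ha⟩ := (Submodule.mem_span_range_iff_exists_fun ℂ).1 (hJ hy)
  have hya : y = el u a := ha.symm
  have hz : a ᵥ* (Matrix.of fun i j => ∑ l, ∑ m, c i l m * c j m l) = 0 := by
    funext j
    -- the product of `ad y` and `ad u_j` has square zero
    have hsq : ∀ b, (adv c a * adm c j) *ᵥ ((adv c a * adm c j) *ᵥ b) = 0 := by
      intro b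
      apply hinj
      have h1 : ∀ b, el u ((adv c a * adm c j) *ᵥ b) =
          y * (u j * el u b - el u b * u j) - (u j * el u b - el u b * u j) * y := by
        intro b
        rw [← Matrix.mulVec_mulVec, ← ad_el hc, ← ad_basis hc, hya]
      have h2 : el u ((adv c a * adm c j) *ᵥ b) ∈ J := by
        rw [h1, ad_basis hc]
        have h3 := hid _ (hel (adm c j *ᵥ b)) y hy
        have h4 : y * el u (adm c j *ᵥ b) - el u (adm c j *ᵥ b) * y =
            -(el u (adm c j *ᵥ b) * y - y * el u (adm c j *ᵥ b)) := by abel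
        rw [h4]
        exact J.neg_mem h3
      rw [h1]
      have h5 := hid (u j) (Submodule.subset_span ⟨j, rfl⟩) _ h2
      rw [hab _ hy _ h5, sub_self]
    have hsq' : (adv c a * adm c j) * (adv c a * adm c j) = 0 := by
      ext i k
      have h1 := congrFun (hsq (Pi.single k 1)) i
      rw [Matrix.mulVec_mulVec, Matrix.mulVec_single_one] at h1
      exact h1
    have hnil : IsNilpotent (adv c a * adm c j) := ⟨2, by rw [pow_two, hsq']⟩
    have htr : (adv c a * adm c j).trace = 0 :=
      (Matrix.isNilpotent_trace_of_isNilpotent hnil).eq_zero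
    rw [Pi.zero_apply, ← htr]
    unfold Matrix.vecMul dotProduct adv
    rw [Finset.sum_mul, Matrix.trace_sum]
    refine Finset.sum_congr rfl fun i _ => ?_
    rw [Matrix.smul_mul, Matrix.trace_smul, smul_eq_mul]
    change a i * (∑ l, ∑ m, c i l m * c j m l) = _
    congr 1
    unfold Matrix.trace
    simp only [Matrix.diag_apply, Matrix.mul_apply, adm, Matrix.of_apply]
    rw [Finset.sum_comm]
  have h0 := Matrix.eq_zero_of_vecMul_eq_zero hdet hz
  rw [hya, h0]
  unfold el
  simp

end Pool.Agent.E8helper77.TW
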