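import Pool.Agent.E8helper77.TW.Gen
import Pool.Agent.E8helper56.TY.TCl

/-!
# The double commutant of the Galois group, and the trace form of the potential endomorphisms

The algebra generated by the annihilator of the Tate tensors and by the parity is semisimple on the
cohomology by Clifford's theorem, since the Galois group normalizes it; its commutant are the
potential endomorphisms. (Pieces DCA and DCB of the project TW.)
-/

set_option autoImplicit false
set_option linter.unusedSectionVars false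

namespace Pool.Agent.E8helper77.TW

open Matrix Module
open Pool.Agent.E8helper1.TX Pool.Agent.E8helper56.TX Pool.Agent.E8helper56.TY

variable {ℓ : ℕ} [Fact ℓ.Prime] {n : Type} [Fintype n] [DecidableEq n] {Γ : Type} [Group Γ]

/-- the annihilator of the Tate tensors -/
def An (D : GalData ℓ n Γ) : Set (Matrix n n ℚ_[ℓ]) :=
  {y | ∀ m, ∀ A ∈ PotOp D.R D.p m, A * dpowK _ y m = dpowK _ y m * A}

/-- the algebra generated by the annihilator and by the parity -/
noncomputable def BM (D : GalData ℓ n Γ) : Subalgebra ℚ_[ℓ] (Matrix n n ℚ_[ℓ]) :=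
  Algebra.adjoin ℚ_[ℓ] (An D ∪ {D.p})

/-- the algebra as an algebra of operators -/
noncomputable def BB (D : GalData ℓ n Γ) : Subalgebra ℚ_[ℓ] (Module.End ℚ_[ℓ] (n → ℚ_[ℓ])) :=
  (BM D).map (Matrix.toLinAlgEquiv' (R := ℚ_[ℓ]) (n := n)).toAlgHom

theorem mem_BB {D : GalData ℓ n Γ} {b : Module.End ℚ_[ℓ] (n → ℚ_[ℓ])} :
    b ∈ BB D ↔ ∃ c ∈ BM D, Matrix.toLin' c = b := Iff.rfl

theorem lin_mul (a b : Matrix n n ℚ_[ℓ]) :
    Matrix.toLin' (a * b) = Matrix.toLin' a * Matrix.toLin' b := Matrix.toLin'_mul a b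

theorem lin_comm {a b : Matrix n n ℚ_[ℓ]} :
    Matrix.toLin' a * Matrix.toLin' b = Matrix.toLin' b * Matrix.toLin' a ↔ a * b = b * a := by
  rw [← lin_mul, ← lin_mul]
  exact Matrix.toLin'.injective.eq_iff

/-- potential endomorphisms commute with the algebra -/
theorem comm_of_pot (D : GalData ℓ n Γ) {a : Matrix n n ℚ_[ℓ]} (ha : IsPot D.R D.p a)
    {b : Matrix n n ℚ_[ℓ]} (hb : b ∈ BM D) : a * b = b * a := by
  refine Algebra.adjoin_induction (p := fun b _ => a * b = b * a) ?_ ?_ ?_ ?_ hb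
  · rintro x (hx | hx)
    · exact pot_comm (hx 2) ha
    · rw [hx]
      exact ha.2
  · intro r
    exact (Algebra.commutes r a).symm
  · intro x y _ _ hx hy
    rw [mul_add, add_mul, hx, hy]
  · intro x y _ _ hx hy
    rw [← mul_assoc, hx, mul_assoc, hy, mul_assoc]

/-- what commutes with the algebra is a potential endomorphism -/
theorem pot_of_comm (D : GalData ℓ n Γ) {a : Matrix n n ℚ_[ℓ]}
    (ha : ∀ b ∈ BM D, a * b = b * a) : IsPot D.R D.p a := by
  refine isPot_of (t_LIE2s D 1 (tpowK _ a 1) (fun x hx => ?_) ?_)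
  · rw [tpow_dpowK, dpow_tpow, ha x (Algebra.subset_adjoin (Or.inl hx))]
  · rw [← tpowK_mul, ← tpowK_mul, ha _ (Algebra.subset_adjoin (Or.inr rfl))]

/-- the potential operators are stable under conjugation -/
theorem conj_pot (D : GalData ℓ n Γ) (g : Γ) {m : ℕ} {A : Matrix (Fin m → n) (Fin m → n) ℚ_[ℓ]}
    (hA : A ∈ PotOp D.R D.p m) :
    tpowK _ (D.R g⁻¹) m * A * tpowK _ (D.R g) m ∈ PotOp D.R D.p m := by
  obtain ⟨⟨Δ, hΔ, h1⟩, h2⟩ := hA
  refine ⟨⟨Δ.normalCore, inferInstance, fun h hh => ?_⟩, ?_⟩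
  · have h3 : g * h * g⁻¹ ∈ Δ := Subgroup.normalCore_le _
      ((inferInstance : Δ.normalCore.Normal).conj_mem h hh g)
    have h4 := h1 _ h3
    have e1 : tpowK _ (D.R g) m * tpowK _ (D.R h) m =
        tpowK _ (D.R (g * h * g⁻¹)) m * tpowK _ (D.R g) m := by
      rw [← tpowK_mul, ← tpowK_mul, ← map_mul, ← map_mul, inv_mul_cancel_right]
    have e2 : tpowK _ (D.R h) m * tpowK _ (D.R g⁻¹) m =
        tpowK _ (D.R g⁻¹) m * tpowK _ (D.R (g * h * g⁻¹)) m := by
      rw [← tpowK_mul, ← tpowK_mul, ← map_mul, ← map_mul]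
      congr 2
      group
    calc _ = tpowK _ (D.R g⁻¹) m * A * (tpowK _ (D.R g) m * tpowK _ (D.R h) m) :=
          Matrix.mul_assoc _ _ _
      _ = tpowK _ (D.R g⁻¹) m * (A * tpowK _ (D.R (g * h * g⁻¹)) m) * tpowK _ (D.R g) m := by
          rw [e1]
          simp only [Matrix.mul_assoc]
      _ = tpowK _ (D.R g⁻¹) m * tpowK _ (D.R (g * h * g⁻¹)) m * A * tpowK _ (D.R g) m := by
          rw [h4]
          simp only [Matrix.mul_assoc]
      _ = _ := by
          rw [← e2]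
          simp only [Matrix.mul_assoc]
  · have e1 : tpowK _ (D.R g) m * tpowK _ D.p m = tpowK _ D.p m * tpowK _ (D.R g) m := by
      rw [← tpowK_mul, ← tpowK_mul, D.p_comm]
    have e2 : tpowK _ D.p m * tpowK _ (D.R g⁻¹) m = tpowK _ (D.R g⁻¹) m * tpowK _ D.p m := by
      rw [← tpowK_mul, ← tpowK_mul, D.p_comm]
    calc _ = tpowK _ (D.R g⁻¹) m * A * (tpowK _ (D.R g) m * tpowK _ D.p m) :=
          Matrix.mul_assoc _ _ _
      _ = tpowK _ (D.R g⁻¹) m * (A * tpowK _ D.p m) * tpowK _ (D.R g) m := by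
          rw [e1]
          simp only [Matrix.mul_assoc]
      _ = tpowK _ (D.R g⁻¹) m * tpowK _ D.p m * A * tpowK _ (D.R g) m := by
          rw [h2]
          simp only [Matrix.mul_assoc]
      _ = _ := by
          rw [← e2]
          simp only [Matrix.mul_assoc]

theorem R_inv (D : GalData ℓ n Γ) (g : Γ) : D.R g * D.R g⁻¹ = 1 := by
  rw [← map_mul, mul_inv_cancel, map_one]

theorem R_inv' (D : GalData ℓ n Γ) (g : Γ) : D.R g⁻¹ * D.R g = 1 := by
  rw [← map_mul, inv_mul_cancel, map_one]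

/-- the annihilator is normalized by the group -/
theorem conj_An (D : GalData ℓ n Γ) (g : Γ) {x : Matrix n n ℚ_[ℓ]} (hx : x ∈ An D) :
    D.R g * x * D.R g⁻¹ ∈ An D := by
  intro m A hA
  have h1 := hx m _ (conj_pot D g hA)
  have e1 : tpowK _ (D.R g) m * tpowK _ (D.R g⁻¹) m = 1 := by
    rw [← tpowK_mul, R_inv, tpowK_one]
  have e3 : dpowK _ (D.R g * x * D.R g⁻¹) m * tpowK _ (D.R g) m =
      tpowK _ (D.R g) m * dpowK _ x m := by
    rw [dpow_tpow, tpow_dpowK, Matrix.mul_assoc, R_inv', Matrix.mul_one]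
  have e2 : dpowK _ (D.R g * x * D.R g⁻¹) m =
      tpowK _ (D.R g) m * dpowK _ x m * tpowK _ (D.R g⁻¹) m := by
    rw [← e3, Matrix.mul_assoc (dpowK _ _ m), e1, Matrix.mul_one]
  have h2 := congrArg (fun C => tpowK _ (D.R g) m * C * tpowK _ (D.R g⁻¹) m) h1
  rw [e2]
  calc A * (tpowK _ (D.R g) m * dpowK _ x m * tpowK _ (D.R g⁻¹) m) =
        (tpowK _ (D.R g) m * tpowK _ (D.R g⁻¹) m) * A *
          (tpowK _ (D.R g) m * dpowK _ x m * tpowK _ (D.R g⁻¹) m) := by
        rw [e1, Matrix.one_mul]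
    _ = tpowK _ (D.R g) m * (tpowK _ (D.R g⁻¹) m * A * tpowK _ (D.R g) m * dpowK _ x m) *
          tpowK _ (D.R g⁻¹) m := by
        simp only [Matrix.mul_assoc]
    _ = tpowK _ (D.R g) m * (dpowK _ x m * (tpowK _ (D.R g⁻¹) m * A * tpowK _ (D.R g) m)) *
          tpowK _ (D.R g⁻¹) m := h2
    _ = tpowK _ (D.R g) m * dpowK _ x m * tpowK _ (D.R g⁻¹) m * A *
          (tpowK _ (D.R g) m * tpowK _ (D.R g⁻¹) m) := by
        simp only [Matrix.mul_assoc]
    _ = _ := by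
        rw [e1, Matrix.mul_one]

/-- the algebra is normalized by the group -/
theorem conj_BM (D : GalData ℓ n Γ) (g : Γ) {x : Matrix n n ℚ_[ℓ]} (hx : x ∈ BM D) :
    D.R g * x * D.R g⁻¹ ∈ BM D := by
  refine Algebra.adjoin_induction (p := fun x _ => D.R g * x * D.R g⁻¹ ∈ BM D) ?_ ?_ ?_ ?_ hx
  · rintro x (hx | hx)
    · exact Algebra.subset_adjoin (Or.inl (conj_An D g hx))
    · rw [hx, ← D.p_comm, Matrix.mul_assoc, R_inv, Matrix.mul_one]
      exact Algebra.subset_adjoin (Or.inr rfl)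
  · intro r
    rw [← Algebra.commutes, Matrix.mul_assoc, R_inv, Matrix.mul_one]
    exact (BM D).algebraMap_mem r
  · intro x y _ _ hx hy
    rw [mul_add, add_mul]
    exact (BM D).add_mem hx hy
  · intro x y _ _ hx hy
    have e : D.R g * (x * y) * D.R g⁻¹ = D.R g * x * D.R g⁻¹ * (D.R g * y * D.R g⁻¹) := by
      calc _ = D.R g * x * 1 * (y * D.R g⁻¹) := by
            rw [Matrix.mul_one]
            simp only [Matrix.mul_assoc]
        _ = _ := by
            rw [← R_inv' D g]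
            simp only [Matrix.mul_assoc]
    rw [e]
    exact (BM D).mul_mem hx hy

/-- a stable subspace has a potential projection -/
theorem exists_e (D : GalData ℓ n Γ) (S : Submodule ℚ_[ℓ] (n → ℚ_[ℓ]))
    (hS : ∀ g, ∀ v ∈ S, D.R g *ᵥ v ∈ S) (hp : ∀ v ∈ S, D.p *ᵥ v ∈ S) :
    ∃ e : Matrix n n ℚ_[ℓ], IsPot D.R D.p e ∧ (∀ v, e *ᵥ v ∈ S) ∧ ∀ v ∈ S, e *ᵥ v = v := by
  obtain ⟨P, h1, h2, h3⟩ := hasProj_of' D.ss ⊤ inferInstance S fun g _ v hv => hS g v hv
  obtain ⟨q, hq⟩ : ∃ q, q = LinearMap.toMatrix' P := ⟨_, rfl⟩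
  have hqv : ∀ v, q *ᵥ v = P v := fun v => by
    rw [hq]
    exact LinearMap.toMatrix'_mulVec P v
  have hqc : ∀ g, q * D.R g = D.R g * q := by
    intro g
    apply Matrix.toLin'.injective
    refine LinearMap.ext fun v => ?_
    rw [Matrix.toLin'_apply, Matrix.toLin'_apply, ← Matrix.mulVec_mulVec, ← Matrix.mulVec_mulVec,
      hqv, hqv]
    exact h3 g trivial v
  have hpp : D.p * D.p = 1 := D.p_mul
  refine ⟨(1 / 2 : ℚ_[ℓ]) • (q + D.p * q * D.p), ⟨⟨⊤, inferInstance, fun g _ => ?_⟩, ?_⟩,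
    fun v => ?_, fun v hv => ?_⟩
  · rw [Matrix.smul_mul, Matrix.mul_smul, Matrix.add_mul, Matrix.mul_add, hqc]
    congr 2
    calc _ = D.p * (q * (D.p * D.R g)) := by simp only [Matrix.mul_assoc]
      _ = D.p * (q * D.R g) * D.p := by
          rw [D.p_comm]
          simp only [Matrix.mul_assoc]
      _ = D.p * D.R g * q * D.p := by
          rw [hqc]
          simp only [Matrix.mul_assoc]
      _ = _ := by
          rw [D.p_comm]
          simp only [Matrix.mul_assoc]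
  · rw [Matrix.smul_mul, Matrix.mul_smul, Matrix.add_mul, Matrix.mul_add, Matrix.mul_assoc _ D.p D.p,
      hpp, Matrix.mul_one, Matrix.mul_assoc, ← Matrix.mul_assoc D.p D.p, hpp, Matrix.one_mul,
      add_comm]
  · rw [Matrix.smul_mulVec, Matrix.add_mulVec, ← Matrix.mulVec_mulVec, ← Matrix.mulVec_mulVec]
    refine S.smul_mem _ (S.add_mem ?_ (hp _ ?_))
    · rw [hqv]
      exact h1 v
    · rw [hqv]
      exact h1 _
  · have h5 : D.p *ᵥ (q *ᵥ (D.p *ᵥ v)) = v := by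
      rw [hqv, h2 _ (hp v hv), Matrix.mulVec_mulVec, hpp, Matrix.one_mulVec]
    rw [Matrix.smul_mulVec, Matrix.add_mulVec, ← Matrix.mulVec_mulVec, ← Matrix.mulVec_mulVec, h5,
      hqv, h2 v hv, ← two_smul ℚ_[ℓ] v, smul_smul]
    norm_num

/-- **The algebra is semisimple.** -/
theorem ss_BB (D : GalData ℓ n Γ) : IsSemisimpleModule (BB D) (n → ℚ_[ℓ]) := by
  refine clif (BB D) {g | ∃ s, Matrix.toLin' (D.R s) = g} ?_ ?_
  · rintro _ ⟨s, rfl⟩
    refine ⟨Matrix.toLin' (D.R s⁻¹), ?_, ?_, ?_, ?_⟩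
    · rw [← lin_mul, R_inv, Matrix.toLin'_one]
      rfl
    · rw [← lin_mul, R_inv', Matrix.toLin'_one]
      rfl
    · rintro _ ⟨b, hb, rfl⟩
      refine mem_BB.2 ⟨_, conj_BM D s hb, ?_⟩
      rw [lin_mul, lin_mul]
      rfl
    · rintro _ ⟨b, hb, rfl⟩
      have h := conj_BM D s⁻¹ hb
      rw [inv_inv] at h
      refine mem_BB.2 ⟨_, h, ?_⟩
      rw [lin_mul, lin_mul]
      rfl
  · intro S h1 h2
    obtain ⟨e, he1, he2, he3⟩ := exists_e D S (fun g v hv => h1 _ ⟨g, rfl⟩ v hv)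
      (fun v hv => h2 (Matrix.toLin' D.p)
        (mem_BB.2 ⟨_, Algebra.subset_adjoin (Or.inr rfl), rfl⟩) v hv)
    refine ⟨Matrix.toLin' e, ?_, he2, he3⟩
    rintro _ ⟨b, hb, rfl⟩
    exact lin_comm.2 (comm_of_pot D he1 hb)

/-- an operator that commutes with `BB` -/
theorem pot_of_commBB (D : GalData ℓ n Γ) {a : Module.End ℚ_[ℓ] (n → ℚ_[ℓ])}
    (ha : ∀ b ∈ BB D, a * b = b * a) : IsPot D.R D.p (LinearMap.toMatrix' a) := by
  refine pot_of_comm D fun b hb => ?_
  rw [← lin_comm, Matrix.toLin'_toMatrix']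
  exact ha _ (mem_BB.2 ⟨b, hb, rfl⟩)

theorem dca (D : GalData ℓ n Γ) (M : Matrix n n ℚ_[ℓ])
    (hM : ∀ a, IsPot D.R D.p a → M * a = a * M) : M ∈ BM D := by
  have := ss_BB D
  obtain ⟨c, hc, he⟩ := mem_BB.1 (dc (BB D) (Matrix.toLin' M) fun a ha => by
    have h1 := hM _ (pot_of_commBB D ha)
    rw [← lin_comm, Matrix.toLin'_toMatrix'] at h1
    exact h1)
  rw [← Matrix.toLin'.injective he]
  exact hc

theorem dcb (D : GalData ℓ n Γ) (a : Matrix n n ℚ_[ℓ]) (ha : IsPot D.R D.p a)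
    (h : ∀ b, IsPot D.R D.p b → (a * b).trace = 0) : a = 0 := by
  have := ss_BB D
  obtain ⟨c, hc, he⟩ := vn (BB D) (Matrix.toLin' a) (by
    rintro _ ⟨b, hb, rfl⟩
    exact lin_comm.2 (comm_of_pot D ha hb))
  have h1 := h _ (pot_of_commBB D hc)
  have h2 : Matrix.toLin' (a * LinearMap.toMatrix' c) = Matrix.toLin' a * c := by
    rw [lin_mul, Matrix.toLin'_toMatrix']
  have h3 : LinearMap.trace ℚ_[ℓ] (n → ℚ_[ℓ]) (Matrix.toLin' a * c) = 0 := by
    rw [← h2, Matrix.trace_toLin'_eq]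
    exact h1
  have h4 : IsIdempotentElem (Matrix.toLin' a * c) := by
    change Matrix.toLin' a * c * (Matrix.toLin' a * c) = Matrix.toLin' a * c
    rw [← mul_assoc, he]
  have h5 : Matrix.toLin' a * c = 0 := LinearMap.IsIdempotentElem.eq_zero_of_trace_eq_zero h4 h3
  rw [h5, zero_mul] at he
  apply Matrix.toLin'.injective
  rw [← he, map_zero]

end Pool.Agent.E8helper77.TW
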