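import Mathlib

/-!
# Semisimple algebras of operators: double commutant, Clifford, von Neumann regularity
-/

set_option autoImplicit false

namespace Pool.Agent.E8helper77.TW

open Module

variable {K V : Type} [Field K] [AddCommGroup V] [Module K V]

/-- an operator that commutes with `B` is `B`-linear -/
def blin (B : Subalgebra K (Module.End K V)) (a : Module.End K V) (ha : ∀ b ∈ B, a * b = b * a) :
    V →ₗ[B] V where
  toFun := a
  map_add' := map_add a
  map_smul' b v := LinearMap.congr_fun (ha b b.2) v

/-- a `B`-linear map as an operator -/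
def unb (B : Subalgebra K (Module.End K V)) (a : V →ₗ[B] V) : Module.End K V where
  toFun := a
  map_add' := map_add a
  map_smul' c v := by
    have h := a.map_smul (algebraMap K B c) v
    have e : ∀ w : V, (algebraMap K B c) • w = c • w := fun w => rfl
    rw [e, e] at h
    exact h

theorem unb_comm (B : Subalgebra K (Module.End K V)) (a : V →ₗ[B] V) (b : Module.End K V)
    (hb : b ∈ B) : unb B a * b = b * unb B a :=
  LinearMap.ext fun v => a.map_smul (⟨b, hb⟩ : B) v

/-- **Double commutant.** -/
theorem dc [FiniteDimensional K V] (B : Subalgebra K (Module.End K V)) [IsSemisimpleModule B V]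
    (M : Module.End K V)
    (hM : ∀ a : Module.End K V, (∀ b ∈ B, a * b = b * a) → M * a = a * M) : M ∈ B := by
  classical
  let f : Module.End (Module.End B V) V :=
    { toFun := M
      map_add' := map_add M
      map_smul' := fun a v => LinearMap.congr_fun (hM (unb B a) (unb_comm B a)) v }
  obtain ⟨r, hr⟩ := jacobson_density f (Finset.univ.image (Module.finBasis K V))
  have h : M = r := (Module.finBasis K V).ext fun i =>
    hr _ (Finset.mem_image_of_mem _ (Finset.mem_univ i))
  rw [h]
  exact r.2

/-- **Regularity.** -/
theorem vn (B : Subalgebra K (Module.End K V)) [IsSemisimpleModule B V]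
    (a : Module.End K V) (ha : ∀ b ∈ B, a * b = b * a) :
    ∃ c : Module.End K V, (∀ b ∈ B, c * b = b * c) ∧ a * c * a = a := by
  obtain ⟨s, hs⟩ := IsSemisimpleModule.lifting_property (R := B) (M := V)
    (N := LinearMap.range (blin B a ha)) (P := LinearMap.range (blin B a ha))
    (blin B a ha).rangeRestrict (LinearMap.surjective_rangeRestrict _) LinearMap.id
  obtain ⟨c, hc⟩ := IsSemisimpleModule.extension_property (R := B) (M := V)
    (N := LinearMap.range (blin B a ha)) (P := V)
    (LinearMap.range (blin B a ha)).subtype (Submodule.subtype_injective _) s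
  refine ⟨unb B c, unb_comm B c, LinearMap.ext fun v => ?_⟩
  have h1 := LinearMap.congr_fun hc ⟨blin B a ha v, LinearMap.mem_range_self _ v⟩
  have h2 := LinearMap.congr_fun hs ⟨blin B a ha v, LinearMap.mem_range_self _ v⟩
  have h3 : c (a v) = s ⟨blin B a ha v, LinearMap.mem_range_self _ v⟩ := h1
  have h4 := congrArg Subtype.val h2
  change a (c (a v)) = a v
  rw [h3]
  exact h4

/-- the preimage of a submodule under an operator that normalizes `B` -/
def pre (B : Subalgebra K (Module.End K V)) (g g' : Module.End K V) (h : g' * g = 1)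
    (hB : ∀ b ∈ B, g * b * g' ∈ B) (N : Submodule B V) : Submodule B V where
  carrier := {v | g v ∈ N}
  add_mem' := by
    intro u v hu hv
    change g (u + v) ∈ N
    rw [map_add]
    exact N.add_mem hu hv
  zero_mem' := by
    change g 0 ∈ N
    rw [map_zero]
    exact N.zero_mem
  smul_mem' := by
    intro b v hv
    have e : g ((b : Module.End K V) v) = (g * b * g') (g v) := by
      change _ = g ((b : Module.End K V) ((g' * g) v))
      rw [h]
      rfl
    change g ((b : Module.End K V) v) ∈ N
    rw [e]
    exact N.smul_mem (⟨_, hB b b.2⟩ : B) hv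

/-- **Clifford.** -/
theorem clif [FiniteDimensional K V] (B : Subalgebra K (Module.End K V))
    (G : Set (Module.End K V))
    (hG : ∀ g ∈ G, ∃ g', g * g' = 1 ∧ g' * g = 1 ∧ (∀ b ∈ B, g * b * g' ∈ B) ∧
      ∀ b ∈ B, g' * b * g ∈ B)
    (hP : ∀ S : Submodule K V, (∀ g ∈ G, ∀ v ∈ S, g v ∈ S) → (∀ b ∈ B, ∀ v ∈ S, b v ∈ S) →
      ∃ e : Module.End K V, (∀ b ∈ B, e * b = b * e) ∧ (∀ v, e v ∈ S) ∧ ∀ v ∈ S, e v = v) :
    IsSemisimpleModule B V := by
  apply IsSemisimpleModule.of_sSup_simples_eq_top
  obtain ⟨S0, hS0⟩ : ∃ S0, S0 = sSup {m : Submodule B V | IsSimpleModule B m} := ⟨_, rfl⟩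
  rw [← hS0]
  have hst : ∀ g ∈ G, ∀ v ∈ S0, g v ∈ S0 := by
    intro g hg
    obtain ⟨g', h1, h2, h3, h4⟩ := hG g hg
    have hle : S0 ≤ pre B g g' h2 h3 S0 := by
      conv_lhs => rw [hS0]
      refine sSup_le fun m hm => ?_
      have hm' : IsAtom m := isSimpleModule_iff_isAtom.1 hm
      let Φ : Submodule B V ≃o Submodule B V :=
        { toFun := pre B g' g h1 h4
          invFun := pre B g g' h2 h3
          left_inv := by
            intro N
            ext v
            change g' (g v) ∈ N ↔ v ∈ N
            have e : g' (g v) = v := LinearMap.congr_fun h2 v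
            rw [e]
          right_inv := by
            intro N
            ext v
            change g (g' v) ∈ N ↔ v ∈ N
            have e : g (g' v) = v := LinearMap.congr_fun h1 v
            rw [e]
          map_rel_iff' := by
            intro N N'
            constructor
            · intro h v hv
              have e : g' (g v) = v := LinearMap.congr_fun h2 v
              have h5 : g v ∈ pre B g' g h1 h4 N := by
                change g' (g v) ∈ N
                rw [e]
                exact hv
              have h6 : g' (g v) ∈ N' := h h5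
              rwa [e] at h6
            · intro h v hv
              exact h hv }
      have h5 : IsAtom (Φ m) := (OrderIso.isAtom_iff Φ m).2 hm'
      have h6 : Φ m ≤ S0 := by
        rw [hS0]
        exact le_sSup (isSimpleModule_iff_isAtom.2 h5)
      intro v hv
      have e : g' (g v) = v := LinearMap.congr_fun h2 v
      have h7 : g v ∈ Φ m := by
        change g' (g v) ∈ m
        rw [e]
        exact hv
      exact h6 h7
    exact fun v hv => hle hv
  obtain ⟨e, he1, he2, he3⟩ := hP (S0.restrictScalars K) hst
    (fun b hb v hv => S0.smul_mem (⟨b, hb⟩ : B) hv)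
  by_contra hne
  have : IsArtinian B V := isArtinian_of_tower K inferInstance
  have hker : LinearMap.ker (blin B e he1) ≠ ⊥ := by
    intro hbot
    apply hne
    rw [eq_top_iff]
    intro v _
    have h1 : v - e v ∈ LinearMap.ker (blin B e he1) := by
      rw [LinearMap.mem_ker]
      change e (v - e v) = 0
      rw [map_sub, he3 (e v) (he2 v), sub_self]
    rw [hbot, Submodule.mem_bot, sub_eq_zero] at h1
    rw [h1]
    exact he2 v
  obtain ⟨m, hm, hmk⟩ := (eq_bot_or_exists_atom_le (LinearMap.ker (blin B e he1))).resolve_left hker
  have h1 : m ≤ S0 := by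
    rw [hS0]
    exact le_sSup (isSimpleModule_iff_isAtom.2 hm)
  apply hm.1
  rw [eq_bot_iff]
  intro v hv
  have h2 : e v = 0 := hmk hv
  have h3 : e v = v := he3 v (h1 hv)
  rw [Submodule.mem_bot, ← h3, h2]

end Pool.Agent.E8helper77.TW
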